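import Pool.Agent.Helper54.T5b.S3Fin

/-!
# T5b, (S3'): the lower window is short, middle distances
-/

set_option autoImplicit false

namespace Pool.Agent.Helper59.T5b

open Finset Pool.Agent.Helper27.T4 Pool.Agent.Helper84.T5b Pool.Agent.Helper37.T5b
open Pool.Agent.Helper30.T5b (pz QF QT RT ez NL BP)
open Pool.Agent.Helper57.T5
open Pool.Agent.Helper48.T5b (SplitP)

variable {m k : ℕ}

/-- the lower window is short, one pair -/
theorem Un_short_mid {s l' l : ℕ} (hm : 0 < m) (hk : 1 ≤ k) (h : SplitP m k s l' l)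
    (hC : ∀ x, l' ≤ x → x ≤ ez m (sL m k l) l →
      NL m k x = RT m k (sL m k l) * Jn m k (sL m k l) x)
    (hD : 7 * SS m (sL m k l') ≤ 20 * (l - l')) :
    Un m k l' * (16 * RT m k (bL m k l')) ≤ Un m k l := by
  have h1 := Pool.Agent.Helper30.T5b.NL_lower m k h.le
  have hez : l ≤ ez m (sL m k l) l := (Pool.Agent.Helper30.T5b.lt_ez hm _ l).le
  rw [hC l' le_rfl (h.le.trans hez), hC l h.le hez, mul_assoc] at h1
  have h2 := Nat.le_of_mul_le_mul_left h1 (Pool.Agent.Helper30.T5b.RT_pos m k (sL m k l))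
  rw [h.s1] at h2
  have h3 : 16 * RT m k (bL m k l') ≤ (10 ^ 6) ^ (l - l') := by
    have e1 := Pool.Agent.Helper30.T5b.RT_le hm k (bL m k l')
    have hks := h.ks
    have e2 : 2 ^ 250 * SS m (bL m k l') ≤ SS m (sL m k l') := by
      rw [h.b', h.s']
      calc 2 ^ 250 * SS m (s - k) ≤ SS m (s - k + 1) := SS_succ_ge hm _
        _ ≤ SS m s := SS_mono m (by omega)
    have e3 := SS_pos m (bL m k l')
    have e4 : SS m (bL m k l') + 1 ≤ l - l' := by
      norm_num at e2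
      omega
    calc 16 * RT m k (bL m k l') ≤ 10 ^ 6 * (10 ^ 6) ^ SS m (bL m k l') :=
          Nat.mul_le_mul (by norm_num) e1
      _ = (10 ^ 6) ^ (SS m (bL m k l') + 1) := (pow_succ' _ _).symm
      _ ≤ _ := Nat.pow_le_pow_right (by norm_num) e4
  rw [h.Un_lower hm, h.Un_upper, h.rL_succ]
  calc Jn m k (s + 1) l' * LL (QQ m k (s + 1)) (rL m k l' + 1) * (16 * RT m k (bL m k l'))
      ≤ Jn m k (s + 1) l' * LL (QQ m k (s + 1)) (rL m k l' + 1) * (10 ^ 6) ^ (l - l') :=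
        Nat.mul_le_mul_left _ h3
    _ = (Jn m k (s + 1) l' * (10 ^ 6) ^ (l - l')) * LL (QQ m k (s + 1)) (rL m k l' + 1) := by ring
    _ ≤ _ := Nat.mul_le_mul_right _ h2

/-- **the lower window is short** -/
theorem Un_short' (hm : 2 ≤ m) {k : ℕ} (hk : 1 ≤ k) : ∃ l0 : ℕ, ∀ l' l, l0 ≤ l' →
    SplitP m k (sL m k l') l' l → 7 * SS m (sL m k l') ≤ 20 * (l - l') →
    (∀ x, l' ≤ x → x ≤ ez m (sL m k l) l →
      NL m k x = RT m k (sL m k l) * Jn m k (sL m k l) x) →
    Un m k l' * (16 * RT m k (bL m k l')) ≤ Un m k l :=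
  ⟨0, fun _ _ _ h hD hC => Un_short_mid (by omega) hk h hC hD⟩

end Pool.Agent.Helper59.T5b
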